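import Pool.Agent.L7h3.GL.Stm

set_option autoImplicit false

/-! Project GL (MP_246c79_co), part MEN: Menger's theorem for an acyclic relation, by Hall's
theorem. -/

namespace Pool.Agent.L7h73.GL

open Pool.Agent.L7h3.GL

/-- an element of a chain is the first one or has a predecessor -/
theorem pred {α : Type} {Q : α → α → Prop} : ∀ (l : List α), l.IsChain Q → ∀ x ∈ l,
    l.head? = some x ∨ ∃ y ∈ l, Q y x
  | [], _, x, hx => absurd hx List.not_mem_nil
  | [a], _, x, hx => by
    rw [List.mem_singleton] at hx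
    left
    rw [hx]
    rfl
  | a :: b :: l, h, x, hx => by
    rw [List.isChain_cons_cons] at h
    rcases List.mem_cons.1 hx with hx | hx
    · left
      rw [hx]
      rfl
    · rcases pred (b :: l) h.2 x hx with h1 | ⟨y, hy, h1⟩
      · right
        have h2 : b = x := by
          have h3 : some b = some x := h1
          exact Option.some.inj h3
        exact ⟨a, List.mem_cons_self, h2 ▸ h.1⟩
      · right
        exact ⟨y, List.mem_cons_of_mem _ hy, h1⟩

/-- the separating set is met -/
theorem meets {α : Type} {R : α → α → Prop} {V B : Finset α} {X : α → Prop} {S : Finset α}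
    (h1 : ∀ x, X x → x ∈ B → x ∈ S) (h2 : ∀ x y, X x → R x y → y ∈ V → ¬ X y → y ∈ S) :
    ∀ (l : List α) (x : α), l.head? = some x → X x → l.IsChain R → (∀ z ∈ l, z ∈ V) →
      (∀ z, l.getLast? = some z → z ∈ B) → ∃ z ∈ l, z ∈ S
  | [], x, hx, _, _, _, _ => by simp at hx
  | [a], x, hx, hX, _, _, hB => by
    have h3 : a = x := by
      have h4 : some a = some x := hx
      exact Option.some.inj h4
    subst h3
    exact ⟨a, List.mem_singleton_self a, h1 a hX (hB a rfl)⟩
  | a :: b :: l, x, hx, hX, hl, hV, hB => by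
    have h3 : a = x := by
      have h4 : some a = some x := hx
      exact Option.some.inj h4
    subst h3
    rw [List.isChain_cons_cons] at hl
    have hbV : b ∈ V := hV b (by simp)
    by_cases hb : X b
    · obtain ⟨z, hz, hzS⟩ := meets h1 h2 (b :: l) b rfl hb hl.2
        (fun z hz => hV z (List.mem_cons_of_mem _ hz))
        (fun z hz => hB z (by rw [List.getLast?_cons_cons]; exact hz))
      exact ⟨z, List.mem_cons_of_mem _ hz, hzS⟩
    · exact ⟨b, by simp, h2 a b hX hl.1 hbV hb⟩

/-- [MEN] -/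
theorem s_MEN : S_MEN := by
  classical
  intro α V A B R rk hrk hAV hBV hRA hcut
  let t : {z // z ∈ V} → Finset (α ⊕ α) := fun z =>
    (V.filter (fun z' => z' ∉ A ∧ (z' = z.1 ∨ R z.1 z'))).disjSum (B.filter (fun z' => z' = z.1))
  have ht1 : ∀ (z : {z // z ∈ V}) (y : α), Sum.inl y ∈ t z ↔
      y ∈ V ∧ y ∉ A ∧ (y = z.1 ∨ R z.1 y) := by
    intro z y
    rw [Finset.inl_mem_disjSum, Finset.mem_filter]
  have ht2 : ∀ (z : {z // z ∈ V}) (y : α), Sum.inr y ∈ t z ↔ y ∈ B ∧ y = z.1 := by
    intro z y
    rw [Finset.inr_mem_disjSum, Finset.mem_filter]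
  have hall : ∀ s : Finset {z // z ∈ V}, s.card ≤ (s.biUnion t).card := by
    intro s
    by_contra hlt
    push Not at hlt
    let X : Finset α := s.map (Function.Embedding.subtype _)
    have hXc : X.card = s.card := Finset.card_map _
    have hXV : X ⊆ V := by
      intro x hx
      obtain ⟨z, _, rfl⟩ := Finset.mem_map.1 hx
      exact z.2
    let N1 : Finset α := V.filter (fun z' => z' ∉ A ∧ ∃ z ∈ X, z' = z ∨ R z z')
    have hsub : N1.disjSum (X ∩ B) ⊆ s.biUnion t := by
      intro w hw
      rw [Finset.mem_biUnion]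
      rcases w with y | y
      · rw [Finset.inl_mem_disjSum, Finset.mem_filter] at hw
        obtain ⟨hyV, hyA, z, hz, hzy⟩ := hw
        obtain ⟨z', hz', rfl⟩ := Finset.mem_map.1 hz
        exact ⟨z', hz', (ht1 z' y).2 ⟨hyV, hyA, hzy⟩⟩
      · rw [Finset.inr_mem_disjSum, Finset.mem_inter] at hw
        obtain ⟨z', hz', hz''⟩ := Finset.mem_map.1 hw.1
        exact ⟨z', hz', (ht2 z' y).2 ⟨hw.2, hz''.symm⟩⟩
    have hc1 := Finset.card_le_card hsub
    rw [Finset.card_disjSum] at hc1
    let S : Finset α := (N1 \ X) ∪ (X ∩ B) ∪ (A \ X)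
    have hS := hcut S (by
      intro a ha l hl hch hlV hlB
      by_cases haX : a ∈ X
      · refine meets (X := fun x => x ∈ X) (V := V) (B := B) ?_ ?_ l a hl haX hch hlV hlB
        · intro x hx hxB
          exact Finset.mem_union_left _ (Finset.mem_union_right _ (Finset.mem_inter.2 ⟨hx, hxB⟩))
        · intro x y hx hxy hyV hyX
          refine Finset.mem_union_left _ (Finset.mem_union_left _ (Finset.mem_sdiff.2 ⟨?_, hyX⟩))
          rw [Finset.mem_filter]
          exact ⟨hyV, fun hyA => hRA x (hXV hx) y hyA hxy, x, hx, Or.inr hxy⟩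
      · refine ⟨a, List.mem_of_head? hl, ?_⟩
        exact Finset.mem_union_right _ (Finset.mem_sdiff.2 ⟨ha, haX⟩))
    have hc2 : S.card ≤ (N1 \ X).card + (X ∩ B).card + (A \ X).card :=
      (Finset.card_union_le _ _).trans (Nat.add_le_add_right (Finset.card_union_le _ _) _)
    have hc3 : (N1 \ X).card + (N1 ∩ X).card = N1.card := Finset.card_sdiff_add_card_inter _ _
    have hc4 : (X \ A).card ≤ (N1 ∩ X).card := by
      refine Finset.card_le_card ?_
      intro x hx
      rw [Finset.mem_sdiff] at hx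
      rw [Finset.mem_inter, Finset.mem_filter]
      exact ⟨⟨hXV hx.1, hx.2, x, hx.1, Or.inl rfl⟩, hx.1⟩
    have hc5 : (X \ A).card + (X ∩ A).card = X.card := Finset.card_sdiff_add_card_inter _ _
    have hc6 : (A \ X).card + (A ∩ X).card = A.card := Finset.card_sdiff_add_card_inter _ _
    rw [Finset.inter_comm A X] at hc6
    omega
  obtain ⟨f, hf, hft⟩ := (Finset.all_card_le_biUnion_card_iff_exists_injective t).1 hall
  let σ : α → α ⊕ α := fun z => if h : z ∈ V then f ⟨z, h⟩ else Sum.inr z
  have hσ : ∀ z (h : z ∈ V), σ z = f ⟨z, h⟩ := fun z h => dif_pos h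
  have hσinj : ∀ z ∈ V, ∀ z' ∈ V, σ z = σ z' → z = z' := by
    intro z hz z' hz' h
    rw [hσ z hz, hσ z' hz'] at h
    exact congrArg Subtype.val (hf h)
  have hσ1 : ∀ z ∈ V, ∀ y, σ z = Sum.inl y → y ∈ V ∧ y ∉ A ∧ (y = z ∨ R z y) := by
    intro z hz y h
    have h1 := hft ⟨z, hz⟩
    rw [← hσ z hz, h] at h1
    exact (ht1 _ _).1 h1
  have hσ2 : ∀ z ∈ V, ∀ y, σ z = Sum.inr y → y ∈ B ∧ y = z := by
    intro z hz y h
    have h1 := hft ⟨z, hz⟩
    rw [← hσ z hz, h] at h1
    exact (ht2 _ _).1 h1
  -- the paths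
  have hpath : ∀ n : ℕ, ∀ z ∈ V, V.sup rk - rk z = n → σ z ≠ Sum.inl z →
      ∃ l : List α, l.head? = some z ∧ l.IsChain (fun x y => σ x = Sum.inl y ∧ R x y) ∧
        (∀ y ∈ l, y ∈ V) ∧ ∀ y, l.getLast? = some y → y ∈ B := by
    intro n
    induction n using Nat.strong_induction_on with
    | _ n ih =>
    intro z hz hn hne
    rcases hy : σ z with y | y
    · obtain ⟨hyV, hyA, hyR⟩ := hσ1 z hz y hy
      have hyz : y ≠ z := by
        rintro rfl
        exact hne hy
      have hR : R z y := hyR.resolve_left hyz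
      have hlt := hrk z y hR
      have hle : rk y ≤ V.sup rk := Finset.le_sup (f := rk) hyV
      have hne' : σ y ≠ Sum.inl y := by
        intro h
        exact hyz (hσinj z hz y hyV (hy.trans h.symm)).symm
      obtain ⟨l, hl1, hl2, hl3, hl4⟩ := ih (V.sup rk - rk y) (by omega) y hyV rfl hne'
      rcases l with _ | ⟨b, l⟩
      · simp at hl1
      · have hb : b = y := by
          have h4 : some b = some y := hl1
          exact Option.some.inj h4
        subst hb
        refine ⟨z :: b :: l, rfl, ?_, ?_, ?_⟩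
        · rw [List.isChain_cons_cons]
          exact ⟨⟨hy, hR⟩, hl2⟩
        · intro x hx
          rcases List.mem_cons.1 hx with hx | hx
          · rw [hx]
            exact hz
          · exact hl3 x hx
        · intro x hx
          rw [List.getLast?_cons_cons] at hx
          exact hl4 x hx
    · obtain ⟨hyB, hyz⟩ := hσ2 z hz y hy
      subst hyz
      refine ⟨[y], rfl, List.isChain_singleton _, ?_, ?_⟩
      · intro x hx
        rw [List.mem_singleton] at hx
        rw [hx]
        exact hz
      · intro x hx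
        have h4 : some y = some x := hx
        rw [← Option.some.inj h4]
        exact hyB
  have hA : ∀ a ∈ A, ∃ l : List α, l.head? = some a ∧
      l.IsChain (fun x y => σ x = Sum.inl y ∧ R x y) ∧
        (∀ y ∈ l, y ∈ V) ∧ ∀ y, l.getLast? = some y → y ∈ B := by
    intro a ha
    refine hpath _ a (hAV ha) rfl ?_
    intro h
    exact (hσ1 a (hAV ha) a h).2.1 ha
  choose! p hp1 hp2 hp3 hp4 using hA
  refine ⟨p, fun a ha => ⟨hp1 a ha, (hp2 a ha).imp (fun _ _ h => h.2), hp3 a ha, hp4 a ha⟩, ?_⟩
  intro a ha a' ha' hne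
  have hdis : ∀ n : ℕ, ∀ x, rk x = n → x ∈ p a → x ∈ p a' → False := by
    intro n
    induction n using Nat.strong_induction_on with
    | _ n ih =>
    intro x hn hx hx'
    rcases pred (p a) (hp2 a ha) x hx with h1 | ⟨y, hy, hyx, hyR⟩
    · rcases pred (p a') (hp2 a' ha') x hx' with h2 | ⟨y', hy', hyx', hyR'⟩
      · rw [hp1 a ha] at h1
        rw [hp1 a' ha'] at h2
        exact hne ((Option.some.inj h1).trans (Option.some.inj h2).symm)
      · rw [hp1 a ha] at h1
        have h3 : a = x := Option.some.inj h1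
        exact (hσ1 y' (hp3 a' ha' y' hy') x hyx').2.1 (h3 ▸ ha)
    · rcases pred (p a') (hp2 a' ha') x hx' with h2 | ⟨y', hy', hyx', hyR'⟩
      · rw [hp1 a' ha'] at h2
        have h3 : a' = x := Option.some.inj h2
        exact (hσ1 y (hp3 a ha y hy) x hyx).2.1 (h3 ▸ ha')
      · have h3 : y = y' := hσinj y (hp3 a ha y hy) y' (hp3 a' ha' y' hy')
          (hyx.trans hyx'.symm)
        subst h3
        exact ih (rk y) (by rw [← hn]; exact hrk y x hyR) y rfl hy hy'
  intro x hx hx'
  exact hdis (rk x) x rfl hx hx'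

end Pool.Agent.L7h73.GL
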